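import Pool.Agent.X95T.NB2

/-!
# Conic and quadric bundles of degree six: approximation in connected components

Let `K` be a field of characteristic zero, for example a number field, `a_1, …, a_m ∈ K`, `m ≥ 2`, all
different from zero, and let `f ∈ K[z_1, …, z_n]` be any polynomial which has degree at most six in
each variable. Let `V` be the variety `∑ a_i w_i² = f(z_1, …, z_n)`, a bundle of affine quadrics
(conics for `m = 2`) over the affine space; its smooth compactifications are rationally connected.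

(1) Let `S` be a finite set of places of `K` with completions `L_v` and let `A_v ⊂ L_v^n` be connected
sets on which `f` has no zeros and above whose points there are points of `V(L_v)`. If the closure
of `V(K)` in the product of the `V(L_v)` contains one point above the product of the `A_v`, then it
contains all of them.

(2) For `L_v = ℂ` any two points with `f ≠ 0` belong to such a set. (For `L_v = ℝ` the sets `A_v` can be
the connected components of the set defined by `f ≠ 0` if the form `∑ a_i w_i²` is indefinite, and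
those of `f > 0` if it is positive definite. For nonarchimedean `L_v` they are points.)

(3) If `K` is dense in `ℂ` and `V` has a point over `K` with `f ≠ 0`, then all points of `V(ℂ)` with
`f ≠ 0` are limits of points of `V(K)`.

So weak approximation at the archimedean places holds for all pairs of points of `V` with the same
real components, also together with approximation at finitely many finite places. This is predicted
by the conjecture of Colliot-Thélène, as the elements of the Brauer group are constant on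
connected sets of archimedean points.

Proof. By the theorem in `MP_12adaf_nt.SexticConicBundles` the closure of `V(K)` is, outside of
`f = 0`, the inverse image of an open subset of the product of the `L_v^n`. As it is closed and as the
projection of `V(L_v)` has local sections, this open set is also closed in the set of the points with
`f ≠ 0` which are images of points of the `V(L_v)`.
-/

set_option autoImplicit false

namespace Pool.Agent.Results.MP_83e36b_nt.DensityInComponents

open MvPolynomial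

/-- The points of the variety `∑ a_i w_i² = f(z)` over a field `k` with a homomorphism `τ : K → k`.
The coordinate `Sum.inl i` is `w_i`, the coordinate `Sum.inr j` is `z_j`. -/
def OnVariety {K : Type} [Field K] {m n : ℕ} (a : Fin m → K) (f : MvPolynomial (Fin n) K)
    {k : Type} [Field k] (τ : K →+* k) (x : Fin m ⊕ Fin n → k) : Prop :=
  ∑ i, τ (a i) * x (Sum.inl i) ^ 2 = eval₂ τ (fun j => x (Sum.inr j)) f

/-- The rational points, in the product of the sets of points over the completions. -/
def rationalPoints {K S : Type} [Field K] {m n : ℕ} (a : Fin m → K) (f : MvPolynomial (Fin n) K)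
    {L : S → Type} [∀ v, Field (L v)] (σ : ∀ v, K →+* L v) : Set (∀ v, Fin m ⊕ Fin n → L v) :=
  {x | ∃ y : Fin m ⊕ Fin n → K, OnVariety a f (RingHom.id K) y ∧ x = fun v s => σ v (y s)}

/-- Connected sets `A` of points `z` with `f(z) ≠ 0` above which there are points of `V`. -/
def Admissible {K : Type} [Field K] {m n : ℕ} (a : Fin m → K) (f : MvPolynomial (Fin n) K)
    {L : Type} [NontriviallyNormedField L] (σ : K →+* L) (A : Set (Fin n → L)) : Prop :=
  IsPreconnected A ∧ ∀ z ∈ A, eval₂ σ z f ≠ 0 ∧ ∃ x : Fin m ⊕ Fin n → L, OnVariety a f σ x ∧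
    (fun j => x (Sum.inr j)) = z

lemma on_iff {K : Type} [Field K] {m n : ℕ} {a : Fin m → K} {f : MvPolynomial (Fin n) K}
    {k : Type} [Field k] {τ : K →+* k} {x : Fin m ⊕ Fin n → k} :
    OnVariety a f τ x ↔ Pool.Agent.X95T.SX.On a f τ x := by
  have h1 : ∑ i, τ (a i) * x (Sum.inl i) ^ 2 = Pool.Agent.X95T.SX.B (fun i => τ (a i))
      (fun i => x (Sum.inl i)) (fun i => x (Sum.inl i)) :=
    Finset.sum_congr rfl fun i _ => by ring
  unfold OnVariety Pool.Agent.X95T.SX.On
  rw [h1]

/-- **Approximation in connected components.** -/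
theorem result :
    ∀ (K : Type) [Field K] [CharZero K] (m n : ℕ) (a : Fin m → K) (f : MvPolynomial (Fin n) K),
      2 ≤ m → (∀ i, a i ≠ 0) → (∀ j, f.degreeOf j ≤ 6) →
      -- (1)
      (∀ (S : Type) [Finite S] [Nonempty S] (L : S → Type) [∀ v, NontriviallyNormedField (L v)]
        [∀ v, CompleteSpace (L v)] (σ : ∀ v, K →+* L v), (∀ v, DenseRange (σ v)) →
        (∀ v v', v ≠ v' → ∃ x : K, ‖σ v x‖ < 1 ∧ 1 ≤ ‖σ v' x‖) →
        ∀ A : ∀ v, Set (Fin n → L v), (∀ v, Admissible a f (σ v) (A v)) →
        ∀ T ∈ closure (rationalPoints a f σ), (∀ v, (fun j => T v (Sum.inr j)) ∈ A v) →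
        ∀ T' : ∀ v, Fin m ⊕ Fin n → L v, (∀ v, OnVariety a f (σ v) (T' v)) →
          (∀ v, (fun j => T' v (Sum.inr j)) ∈ A v) → T' ∈ closure (rationalPoints a f σ)) ∧
      -- (2)
      (∀ (σ : K →+* ℂ) (z z' : Fin n → ℂ), eval₂ σ z f ≠ 0 → eval₂ σ z' f ≠ 0 →
        ∃ A : Set (Fin n → ℂ), Admissible a f σ A ∧ z ∈ A ∧ z' ∈ A) ∧
      -- (3)
      (∀ σ : K →+* ℂ, DenseRange σ →
        (∃ y : Fin m ⊕ Fin n → K, OnVariety a f (RingHom.id K) y ∧
          eval (fun j => y (Sum.inr j)) f ≠ 0) →
        ∀ T : Fin m ⊕ Fin n → ℂ, OnVariety a f σ T → eval₂ σ (fun j => T (Sum.inr j)) f ≠ 0 →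
          T ∈ closure {x | ∃ y : Fin m ⊕ Fin n → K, OnVariety a f (RingHom.id K) y ∧
            x = fun s => σ (y s)}) := by
  intro K _ _ m n a f hm ha hf
  have : Nontrivial (Fin m) := Fin.nontrivial_iff_two_le.2 hm
  have h1 : ∀ (S : Type) [Finite S] [Nonempty S] (L : S → Type)
      [∀ v, NontriviallyNormedField (L v)] [∀ v, CompleteSpace (L v)] (σ : ∀ v, K →+* L v),
      (∀ v, DenseRange (σ v)) → (∀ v v', v ≠ v' → ∃ x : K, ‖σ v x‖ < 1 ∧ 1 ≤ ‖σ v' x‖) →
      ∀ A : ∀ v, Set (Fin n → L v), (∀ v, Admissible a f (σ v) (A v)) →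
      ∀ T ∈ closure (rationalPoints a f σ), (∀ v, (fun j => T v (Sum.inr j)) ∈ A v) →
      ∀ T' : ∀ v, Fin m ⊕ Fin n → L v, (∀ v, OnVariety a f (σ v) (T' v)) →
        (∀ v, (fun j => T' v (Sum.inr j)) ∈ A v) → T' ∈ closure (rationalPoints a f σ) := by
    intro S _ _ L _ _ σ hσ hne A hA T hT hTA T' hT' hTA'
    have hKP : rationalPoints a f σ = Pool.Agent.X95T.SX.KP a f σ := by
      ext x
      constructor
      · rintro ⟨y, hy, h⟩
        exact ⟨y, on_iff.1 hy, h⟩
      · rintro ⟨y, hy, h⟩
        exact ⟨y, on_iff.2 hy, h⟩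
    rw [hKP] at hT ⊢
    refine Pool.Agent.X95T.SX.conn hf (Pool.Agent.X95T.SX.dense_diag hσ hne) ha
      (fun v => (hA v).1) (fun v z hz => ⟨((hA v).2 z hz).1, ?_⟩) hT
      (fun v => on_iff.1 (hT' v)) hTA hTA'
    obtain ⟨x, hx, hx'⟩ := ((hA v).2 z hz).2
    exact ⟨x, on_iff.1 hx, hx'⟩
  have h2 : ∀ (σ : K →+* ℂ) (z z' : Fin n → ℂ), eval₂ σ z f ≠ 0 → eval₂ σ z' f ≠ 0 →
      ∃ A : Set (Fin n → ℂ), Admissible a f σ A ∧ z ∈ A ∧ z' ∈ A := by
    intro σ z z' hz hz'
    obtain ⟨A, hA, hA1, hzA, hzA'⟩ := Pool.Agent.X95T.SX.line hz hz'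
    refine ⟨A, ⟨hA, fun u hu => ⟨hA1 u hu, ?_⟩⟩, hzA, hzA'⟩
    obtain ⟨x, hx, hx'⟩ := Pool.Agent.X95T.SX.fib_c (σ := σ) (f := f) ha u
    exact ⟨x, on_iff.2 hx, hx'⟩
  refine ⟨h1, h2, ?_⟩
  rintro σ hσ ⟨y, hy, hy0⟩ T hT hT0
  have hy1 : eval₂ σ (fun j => σ (y (Sum.inr j))) f ≠ 0 := by
    have h3 : eval₂ σ (fun j => σ (y (Sum.inr j))) f = σ (eval (fun j => y (Sum.inr j)) f) := by
      rw [eval, coe_eval₂Hom, ← RingHom.coe_coe σ, eval₂_comp_left]
      rfl
    rw [h3]
    exact (map_ne_zero σ).2 hy0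
  obtain ⟨A, hA, hzA, hzA'⟩ := h2 σ _ _ hy1 hT0
  have h4 := h1 Unit (fun _ => ℂ) (fun _ => σ) (fun _ => hσ) (fun v v' h => absurd rfl h)
    (fun _ => A) (fun _ => hA) (fun _ s => σ (y s)) (subset_closure ⟨y, hy, rfl⟩) (fun _ => hzA)
    (fun _ => T) (fun _ => hT) fun _ => hzA'
  refine map_mem_closure (f := fun x : (∀ _ : Unit, Fin m ⊕ Fin n → ℂ) => x ())
    (continuous_apply ()) h4 ?_
  rintro _ ⟨y', hy', rfl⟩
  exact ⟨y', hy', rfl⟩

end Pool.Agent.Results.MP_83e36b_nt.DensityInComponents
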