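import Pool.Agent.X99.SV.B
import Pool.Agent.X99.LP.D
import Pool.Agent.Results.MP_83e36b_nt.SeveralShifts

/-!
# Weak approximation for ALL of the fibrations given by several shifted polynomials, along generic dilates

From Mathlib: `∀ᵐ α`: for almost all `α` (Lebesgue measure); `Real.log`: the natural logarithm. From the team's `SeveralShifts`
(its definitions are used as they are), for polynomials `f j ∈ ℤ[t]` (`j < s`), integers `a i`, `c i` and sets
`E i ⊆ {0, ..., s - 1}` (`i < r`), `k ∈ ℤ ^ s` and the variety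
`V_k : y_i² - a_i z_i² = c_i ∏_{j ∈ E_i} (f_j(t) + k_j)`, all `f_j(t) + k_j ≠ 0`:
`Given f a c E T N B X k t y z tr yr zr`: the `(t p, y p, z p)`, `p ∈ T`, are `p`-adic points of `V_k` with coordinates of absolute
value at most `p ^ N` and `|f_j(t) + k_j| ≥ p ^ (-N)`, and `(tr, yr, zr)` is a real point of `V_k` with `|tr| ≤ B X`,
`|f_j(tr) + k_j| ≥ X ^ deg f_j / B` and `yr_i², zr_i² ≤ B X ^ (∑_{j ∈ E_i} deg f_j)`;
`Approximated f a c E T N B X k t y z tr yr zr`: there is a rational point `(q, Y, Z)` of `V_k` at the distance at most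
`p ^ (-N)` from the given `p`-adic point for all `p ∈ T`, with `|q - tr| ≤ X / B` and
`(Y_i - yr_i)², (Z_i - zr_i)² ≤ X ^ (∑_{j ∈ E_i} deg f_j) / B`.
From `Pool/Agent/X99/LP`: `Fast κ`: there is `δ > 0` such that `κ n ≥ n ^ δ` for all large `n`.

There are two changes against `SeveralShifts`. There 100% of the `k` are good; here there is no exception at all for the `k`
near `(α_j X_n ^ deg f_j)`, for almost every `α ∈ ℝ ^ s`, with one null set for all the data at once. On the other hand, here the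
given points have to be orthogonal to the classes `(a_i, f_j(t) + k_j)`, `j ∈ E_i` (over `T` and the real place); in
`SeveralShifts` this is not needed as 100% of the `k` have a suitable auxiliary prime. The `a_i` are arbitrary here.
-/

set_option autoImplicit false

namespace Pool.Agent.Results.MP_83e36b_nt.NoExceptionsSeveralShifts

open Finset Polynomial Filter Topology MeasureTheory
open Pool.Agent.X99.LP (Fast ae_box)
open Pool.Agent.Results.MP_83e36b_nt.SeveralShifts (OnV Given Approximated)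

/-- `b` is a norm from `F(√a)`: the class `(a, b)` in the Brauer group of `F` is trivial -/
def IsNorm {F : Type} [Field F] (a b : F) : Prop := ∃ u v : F, u ^ 2 - a * v ^ 2 = b

open Classical in
/-- the points `t p`, `p ∈ T`, and `tr` are orthogonal to the classes `(a_i, f_j(t) + k_j)`, `j ∈ E_i`: for every `i` and every
`j ∈ E_i` the number of the places (the primes of `T` and the real place) at which the class is not trivial is even -/
def Orthogonal {r s : ℕ} (f : Fin s → ℤ[X]) (a : Fin r → ℤ) (E : Fin r → Finset (Fin s)) (T : Finset Nat.Primes)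
    (k : Fin s → ℤ) (t : (p : Nat.Primes) → ℚ_[(p : ℕ)]) (tr : ℝ) : Prop :=
  ∀ i, ∀ j ∈ E i,
    Even (#(T.filter (fun p : Nat.Primes => ¬ IsNorm (a i : ℚ_[(p : ℕ)]) (aeval (t p) (f j) + (k j : ℚ_[(p : ℕ)])))) +
      (if IsNorm (a i : ℝ) (aeval tr (f j) + (k j : ℝ)) then 0 else 1))

/-- weak approximation of the level `N`, `B` at the scale `X` for the points of `V_k` orthogonal to the classes -/
def Good {r s : ℕ} (f : Fin s → ℤ[X]) (a c : Fin r → ℤ) (E : Fin r → Finset (Fin s)) (T : Finset Nat.Primes)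
    (N B X : ℕ) (k : Fin s → ℤ) : Prop :=
  ∀ (t : (p : Nat.Primes) → ℚ_[(p : ℕ)]) (y z : (p : Nat.Primes) → Fin r → ℚ_[(p : ℕ)]) (tr : ℝ) (yr zr : Fin r → ℝ),
    Given f a c E T N B X k t y z tr yr zr → Orthogonal f a E T k t tr → Approximated f a c E T N B X k t y z tr yr zr

/-- the primes of bad reduction and the small primes -/
def Contains {r s : ℕ} (f : Fin s → ℤ[X]) (a c : Fin r → ℤ) (T : Finset Nat.Primes) : Prop :=
  ∀ p : Nat.Primes, ((p : ℕ) = 2 ∨ (p : ℕ) ≤ ∑ j, (f j).natDegree ∨ (∃ j, ((p : ℕ) : ℤ) ∣ (f j).leadingCoeff) ∨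
    ∃ i, ((p : ℕ) : ℤ) ∣ a i * c i) → p ∈ T

theorem real_norm {a : ℤ} (ha : a ≠ 0) (b : ℝ) : IsNorm (a : ℝ) b ↔ ¬ (a < 0 ∧ b < 0) := by
  constructor
  · rintro ⟨u, v, huv⟩ ⟨h1, h2⟩
    have h3 : (a : ℝ) < 0 := by exact_mod_cast h1
    nlinarith [sq_nonneg u, sq_nonneg v]
  · intro h1
    rw [not_and_or, not_lt, not_lt] at h1
    rcases h1 with h1 | h1
    · have h3 : (0 : ℝ) < a := by exact_mod_cast lt_of_le_of_ne h1 (Ne.symm ha)
      have h4 : √(a : ℝ) ^ 2 = a := Real.sq_sqrt h3.le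
      have h5 : √(a : ℝ) ≠ 0 := (Real.sqrt_pos.2 h3).ne'
      refine ⟨(b + 1) / 2, (b - 1) / (2 * √(a : ℝ)), ?_⟩
      rw [div_pow, div_pow, mul_pow, h4]
      field_simp
      ring
    · exact ⟨√b, 0, by rw [Real.sq_sqrt h1]; ring⟩

theorem given_mono {r s : ℕ} {f : Fin s → ℤ[X]} {a c : Fin r → ℤ} {E : Fin r → Finset (Fin s)} {T : Finset Nat.Primes}
    {N B B' X : ℕ} (hB : B ≤ B') {k : Fin s → ℤ} {t : (p : Nat.Primes) → ℚ_[(p : ℕ)]}
    {y z : (p : Nat.Primes) → Fin r → ℚ_[(p : ℕ)]} {tr : ℝ} {yr zr : Fin r → ℝ}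
    (h : Given f a c E T N B X k t y z tr yr zr) : Given f a c E T N B' X k t y z tr yr zr := by
  have hBr : (B : ℝ) ≤ B' := by exact_mod_cast hB
  obtain ⟨h1, h2, h3, h4, h5⟩ := h
  refine ⟨h1, h2, h3.trans (mul_le_mul_of_nonneg_right hBr (Nat.cast_nonneg _)), fun j => (h4 j).trans
    (mul_le_mul_of_nonneg_right hBr (abs_nonneg _)), fun i => ⟨(h5 i).1.trans (mul_le_mul_of_nonneg_right hBr (by positivity)),
    (h5 i).2.trans (mul_le_mul_of_nonneg_right hBr (by positivity))⟩⟩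

theorem approximated_mono {r s : ℕ} {f : Fin s → ℤ[X]} {a c : Fin r → ℤ} {E : Fin r → Finset (Fin s)} {T : Finset Nat.Primes}
    {N B B' X : ℕ} (hB : B ≤ B') {k : Fin s → ℤ} {t : (p : Nat.Primes) → ℚ_[(p : ℕ)]}
    {y z : (p : Nat.Primes) → Fin r → ℚ_[(p : ℕ)]} {tr : ℝ} {yr zr : Fin r → ℝ}
    (h : Approximated f a c E T N B' X k t y z tr yr zr) : Approximated f a c E T N B X k t y z tr yr zr := by
  have hBr : (B : ℝ) ≤ B' := by exact_mod_cast hB
  obtain ⟨q, Y, Z, h1, h2, h3, h4⟩ := h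
  exact ⟨q, Y, Z, h1, h2, (mul_le_mul_of_nonneg_right hBr (abs_nonneg _)).trans h3, fun i =>
    ⟨(mul_le_mul_of_nonneg_right hBr (sq_nonneg _)).trans (h4 i).1, (mul_le_mul_of_nonneg_right hBr (sq_nonneg _)).trans (h4 i).2⟩⟩

theorem good_mono {r s : ℕ} {f : Fin s → ℤ[X]} {a c : Fin r → ℤ} {E : Fin r → Finset (Fin s)} {T : Finset Nat.Primes}
    {N B B' X : ℕ} (hB : B ≤ B') {k : Fin s → ℤ} (h : Good f a c E T N B' X k) : Good f a c E T N B X k :=
  fun t y z tr yr zr hg ho => approximated_mono hB (h t y z tr yr zr (given_mono hB hg) ho)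

theorem good_of {r s : ℕ} {f : Fin s → ℤ[X]} {a c : Fin r → ℤ} (ha : ∀ i, a i ≠ 0) {E : Fin r → Finset (Fin s)}
    {T : Finset Nat.Primes} {N B X : ℕ} {k : Fin s → ℤ} (h : Pool.Agent.X99.SV.WAMP f a c E T N B X k) :
    Good f a c E T N B X k := by
  classical
  intro t y z tr yr zr hg ho
  obtain ⟨h1, h2, h3, h4, h5⟩ := hg
  refine h t y z tr yr zr h1 h2 h3 h4 h5 fun i j hj => ?_
  have h6 := ho i j hj
  have e1 : T.filter (fun p : Nat.Primes => ¬ IsNorm (a i : ℚ_[(p : ℕ)]) (aeval (t p) (f j) + (k j : ℚ_[(p : ℕ)]))) =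
      T.filter (fun p : Nat.Primes => ¬ Pool.Agent.W313.BMX.Splits (a i : ℚ_[(p : ℕ)]) (Pool.Agent.Y714.RC.PP f k j (t p))) := by
    apply filter_congr
    intro p hp
    have := Pool.Agent.TH204.HP.conic_iff (a i : ℚ_[(p : ℕ)]) (aeval (t p) (f j) + (k j : ℚ_[(p : ℕ)]))
      (by exact_mod_cast ha i) ((h1 p hp).1.1 j)
    exact not_congr this
  have e2 : (if IsNorm (a i : ℝ) (aeval tr (f j) + (k j : ℝ)) then 0 else 1) =
      (if a i < 0 ∧ Pool.Agent.Y714.RC.PP f k j tr < 0 then 1 else 0) := by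
    have e3 := real_norm (ha i) (aeval tr (f j) + (k j : ℝ))
    have e4 : Pool.Agent.Y714.RC.PP f k j tr = aeval tr (f j) + (k j : ℝ) := rfl
    rw [e4]
    by_cases h7 : a i < 0 ∧ aeval tr (f j) + (k j : ℝ) < 0
    · rw [if_neg (fun h8 => (e3.1 h8) h7), if_pos h7]
    · rw [if_pos (e3.2 h7), if_neg h7]
  rw [e1, e2] at h6
  exact h6

/-- the data: `r`, `f`, `a`, `c`, `E`, `T`, `N`, `B`, `U` -/
abbrev Data (s : ℕ) : Type :=
  (r : ℕ) × ((Fin s → ℤ[X]) × (Fin r → ℤ) × (Fin r → ℤ) × (Fin r → Finset (Fin s)) × Finset Nat.Primes × ℕ × ℕ × ℕ)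

theorem countable_data (s : ℕ) : Countable (Data s) := by
  have : Countable ℤ[X] := by
    rw [← Cardinal.mk_le_aleph0_iff]
    exact Polynomial.cardinalMk_le_max.trans (by simp)
  exact inferInstance

/-- **Theorem.** Let `X_n` be a sequence of natural numbers with `log X_n ≥ n ^ δ` for some `δ > 0` and all large `n`, for
example `X_n = 2 ^ n`. For every `s` and almost every `α ∈ ℝ ^ s`: for ALL nonconstant `f_1, ..., f_s ∈ ℤ[t]`, all `r`, all nonzero
integers `a_i`, `c_i`, all sets `E_i` (`i < r`), all finite sets `T` of primes which contain `2`, the primes up to `∑ deg f_j` and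
those which divide a leading coefficient of an `f_j` or some `a_i c_i`, all `N`, `B`, `U` and all `n ≥ n₀` (depending on all this):
for ALL `k ∈ ℤ ^ s` with `|k_j - α_j X_n ^ deg f_j| ≤ (log X_n) ^ U` the points of `V_k` over `T` and the real place which are
orthogonal to the classes `(a_i, f_j(t) + k_j)`, `j ∈ E_i`, are approximated by rational points of `V_k`. -/
theorem result (Xs : ℕ → ℕ) (hX : Fast (fun n => Real.log (Xs n))) (s : ℕ) :
    ∀ᵐ α : Fin s → ℝ, ∀ (r : ℕ) (f : Fin s → ℤ[X]), (∀ j, 1 ≤ (f j).natDegree) →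
      ∀ a c : Fin r → ℤ, (∀ i, a i ≠ 0) → (∀ i, c i ≠ 0) → ∀ (E : Fin r → Finset (Fin s)) (T : Finset Nat.Primes),
      Contains f a c T → ∀ N B U : ℕ, ∃ n₀ : ℕ, ∀ n : ℕ, n₀ ≤ n → ∀ k : Fin s → ℤ,
        (∀ j, |(k j : ℝ) - α j * (Xs n : ℝ) ^ (f j).natDegree| ≤ Real.log (Xs n) ^ U) → Good f a c E T N B (Xs n) k := by
  classical
  have hcount := countable_data s
  have key : ∀ᵐ α : Fin s → ℝ, ∀ (D : Data s) (A : ℕ), (∀ j, 1 ≤ (D.2.1 j).natDegree) → (∀ i, D.2.2.1 i ≠ 0) →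
      (∀ i, D.2.2.2.1 i ≠ 0) → Contains D.2.1 D.2.2.1 D.2.2.2.1 D.2.2.2.2.2.1 → (∀ j, |α j| ≤ A) →
      ∃ n₀ : ℕ, ∀ n : ℕ, n₀ ≤ n → ∀ k : Fin s → ℤ,
        (∀ j, |(k j : ℝ) - α j * (Xs n : ℝ) ^ (D.2.1 j).natDegree| ≤ Real.log (Xs n) ^ D.2.2.2.2.2.2.2.2) →
        Good D.2.1 D.2.2.1 D.2.2.2.1 D.2.2.2.2.1 D.2.2.2.2.2.1 D.2.2.2.2.2.2.1 D.2.2.2.2.2.2.2.1 (Xs n) k := by
    rw [ae_all_iff]
    rintro ⟨r, f, a, c, E, T, N, B, U⟩
    rw [ae_all_iff]
    intro A
    by_cases h : (∀ j, 1 ≤ (f j).natDegree) ∧ (∀ i, a i ≠ 0) ∧ (∀ i, c i ≠ 0) ∧ Contains f a c T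
    swap
    · exact Filter.Eventually.of_forall fun α h1 h2 h3 h4 => absurd ⟨h1, h2, h3, h4⟩ h
    obtain ⟨h1, h2, h3, h4⟩ := h
    have := ae_box (fun j => (f j).natDegree) h1 Xs hX (fun X k => Good f a c E T N B X k) A U (fun V => by
      obtain ⟨X₀, hX₀⟩ := Pool.Agent.X99.SV.wamp_few f h1 a c h2 h3 E T h4 N (max B (A + 1)) V
        ((Nat.le_add_left 1 A).trans (le_max_right _ _))
      refine ⟨X₀, fun X hXX => ?_⟩
      obtain ⟨Bad, g1, g2⟩ := hX₀ X hXX
      refine ⟨Bad, g1, fun k hk hkB => ?_⟩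
      refine good_mono (le_max_left B (A + 1)) (good_of h2 (g2 k (fun j => (hk j).trans ?_) hkB))
      exact_mod_cast Nat.mul_le_mul_right _ (le_max_right B (A + 1)))
    filter_upwards [this] with α hα _ _ _ _ hαA
    exact hα hαA
  filter_upwards [key] with α hα r f hf a c ha hc E T hT N B U
  obtain ⟨A, hA⟩ := exists_nat_ge (∑ j, |α j|)
  exact hα ⟨r, f, a, c, E, T, N, B, U⟩ A hf ha hc hT
    (fun j => (Finset.single_le_sum (fun i _ => abs_nonneg (α i)) (Finset.mem_univ j)).trans hA)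

end Pool.Agent.Results.MP_83e36b_nt.NoExceptionsSeveralShifts
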