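import Pool.Agent.X20.Tr.Sgn
import Pool.Agent.X20.Tr.Int
import Pool.Agent.X20.Tr.Low
import Pool.Agent.Results.MP_83e36b_nt.QuadraticTwists

/-!
# Weak approximation for 100% of the twists by `± ⌊α n ^ c⌋` of a double cover of `ℙⁿ × ℙ¹`

From Mathlib: `dimH E`: the Hausdorff dimension; `⌊x⌋₊`: the integer part; `Finset.Icc 1 N`: the integers from `1` to
`N`; `×ˢ`: the product of finite sets; `𝓝 1`: the neighbourhoods of `1`; `∀ᶠ N in atTop`: for all large `N`. From the team's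
`QuadraticTwists` (its definitions are used as they are), for integral forms `A`, `B`, `D` in `x = (x_0, ..., x_r)`:
`HasPoint A B D a Ω`: the variety `w² = a (A(x) u² + B(x) u v + D(x) v²)` has a point `(x, (u, v), w)` over the field `K` with
`w ≠ 0` and with `(x, (u, v))` in the set `Ω`; `OpenSets r`: nonempty open sets `re` of `ℝ ^ (r + 1) × ℝ ^ 2` and `pa p` of
`ℚ_p ^ (r + 1) × ℚ_p ^ 2`, almost all of them equal to the whole space.
-/

set_option autoImplicit false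

namespace Pool.Agent.Results.MP_83e36b_nt.SparseQuadraticTwists

open Finset Filter Topology
open Pool.Agent.X20.Tr
open Pool.Agent.Y854.PS (ms xs)
open Pool.Agent.Results.MP_83e36b_nt.QuadraticTwists (HasPoint OpenSets)

/-- the twist by `a` has points over `ℝ` and over all `ℚ_p` with coordinates in the given open sets -/
def Loc {r : ℕ} (A B D : MvPolynomial (Fin (r + 1)) ℤ) (Ω : OpenSets r) (a : ℤ) : Prop :=
  HasPoint A B D a Ω.re ∧ ∀ p : Nat.Primes, HasPoint A B D a (Ω.pa p)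

/-- the twist by `a` has a rational point with coordinates in all the given open sets -/
def Glo {r : ℕ} (A B D : MvPolynomial (Fin (r + 1)) ℤ) (Ω : OpenSets r) (a : ℤ) : Prop :=
  HasPoint A B D a {x : (Fin (r + 1) → ℚ) × (Fin 2 → ℚ) |
    ((fun i => (x.1 i : ℝ)), (fun i => (x.2 i : ℝ))) ∈ Ω.re ∧ ∀ p : Nat.Primes,
      ((fun i => (x.1 i : ℚ_[(p : ℕ)])), (fun i => (x.2 i : ℚ_[(p : ℕ)]))) ∈ Ω.pa p}

open Classical in
/-- the number of the pairs `(n, s)`, `n ≤ N`, `s = ± 1`, such that `⌊α n ^ c⌋` is squarefree and `P (s ⌊α n ^ c⌋)` -/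
noncomputable def count (c α : ℝ) (P : ℤ → Prop) (N : ℕ) : ℕ :=
  ((Icc 1 N ×ˢ {1, -1}).filter (fun p : ℕ × ℤ => Squarefree ⌊α * (p.1 : ℝ) ^ c⌋₊ ∧
    P (p.2 * ((⌊α * (p.1 : ℝ) ^ c⌋₊ : ℕ) : ℤ)))).card

lemma cast_aeval {K : Type} [Field K] [CharZero K] {m : ℕ} (x : Fin m → ℚ) (p : MvPolynomial (Fin m) ℤ) :
    MvPolynomial.aeval (fun i => ((x i : ℚ) : K)) p = ((MvPolynomial.aeval x p : ℚ) : K) := by
  have h := MvPolynomial.aeval_algebraMap_apply (B := K) x p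
  have e : (⇑(algebraMap ℚ K) ∘ x) = fun i => ((x i : ℚ) : K) := funext fun i => eq_ratCast _ _
  have e2 : (fun i => (algebraMap ℚ K) (x i)) = fun i => ((x i : ℚ) : K) := funext fun i => eq_ratCast _ _
  simpa only [e, e2, eq_ratCast] using h

lemma point_map {K : Type} [Field K] [CharZero K] {r : ℕ} {A B D : MvPolynomial (Fin (r + 1)) ℤ} {a : ℤ}
    {S : Set ((Fin (r + 1) → ℚ) × (Fin 2 → ℚ))} {T : Set ((Fin (r + 1) → K) × (Fin 2 → K))}
    (hST : ∀ x ∈ S, ((fun i => (x.1 i : K)), (fun i => (x.2 i : K))) ∈ T) (h : HasPoint A B D a S) :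
    HasPoint A B D a T := by
  obtain ⟨x, hx, w, hw, h⟩ := h
  refine ⟨_, hST x hx, (w : K), by exact_mod_cast hw, ?_⟩
  have h1 := congrArg (fun q : ℚ => (q : K)) h
  push_cast at h1
  show (w : K) ^ 2 = (a : K) * (MvPolynomial.aeval (fun i => (x.1 i : K)) A * (x.2 0 : K) ^ 2 +
    MvPolynomial.aeval (fun i => (x.1 i : K)) B * ((x.2 0 : K) * (x.2 1 : K)) +
    MvPolynomial.aeval (fun i => (x.1 i : K)) D * (x.2 1 : K) ^ 2)
  rw [cast_aeval, cast_aeval, cast_aeval]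
  exact h1

lemma glo_loc {r : ℕ} {A B D : MvPolynomial (Fin (r + 1)) ℤ} {Ω : OpenSets r} {a : ℤ} (h : Glo A B D Ω a) :
    Loc A B D Ω a :=
  ⟨point_map (fun _ hx => hx.1) h, fun p => point_map (fun _ hx => hx.2 p) h⟩

/-- the squarefree `m` with `P (s m)` -/
def S (P : ℤ → Prop) (s : ℤ) : Set ℕ := {m : ℕ | Squarefree m ∧ P (s * (m : ℤ))}

lemma count_eq (c α : ℝ) (P : ℤ → Prop) (N : ℕ) :
    (count c α P N : ℝ) = (hit c α (S P 1) N : ℝ) + hit c α (S P (-1)) N := by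
  classical
  unfold count
  rw [hit_sum, hit_sum, ← sum_add_distrib]
  refine (pairs_sum (fun n s => Squarefree ⌊α * (n : ℝ) ^ c⌋₊ ∧ P (s * ((⌊α * (n : ℝ) ^ c⌋₊ : ℕ) : ℤ))) N).trans ?_
  apply sum_congr rfl
  intro n _
  unfold ind S
  congr 1

lemma int_eq (P : ℤ → Prop) (X : ℕ) {dp : DecidablePred fun a : ℤ => Squarefree a ∧ P a} :
    ((@Finset.filter ℤ (fun a => Squarefree a ∧ P a) dp (Icc (-(X : ℤ)) X)).card : ℝ) =
      ∑ m ∈ Ioc 0 X, (ind (S P 1) m + ind (S P (-1)) m) := by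
  classical
  rw [signs_sum (fun a => Squarefree a ∧ P a) X (fun h => not_squarefree_zero h.1)]
  apply sum_congr rfl
  intro m _
  unfold ind S
  have e1 : (Squarefree ((m : ℤ)) ∧ P (m : ℤ)) ↔ m ∈ {m : ℕ | Squarefree m ∧ P (1 * (m : ℤ))} := by
    rw [sqf_pos]
    show _ ↔ (Squarefree m ∧ P (1 * (m : ℤ)))
    rw [one_mul]
  have e2 : (Squarefree (-(m : ℤ)) ∧ P (-(m : ℤ))) ↔ m ∈ {m : ℕ | Squarefree m ∧ P (-1 * (m : ℤ))} := by
    rw [sqf_neg]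
    show _ ↔ (Squarefree m ∧ P (-1 * (m : ℤ)))
    rw [neg_one_mul]
  simp only [e1, e2]
  congr!

/-- For every real `c > 1` there is `κ > 0` such that for every `r` and all open sets `Ω` there is a set `E` of real numbers
of Hausdorff dimension at most `1 - κ` such that for every real `α > 0` outside `E` and ALL forms `A`, `B`, `D` of degrees
`2 u`, `u + v`, `2 v`, `u + v ≥ 1`, with squarefree `B² - 4 A D`: a positive proportion of the twists of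
`w² = A(x) u² + B(x) u v + D(x) v²` by the squarefree numbers `± ⌊α n ^ c⌋`, `n ≤ N`, have local points with coordinates
in the given open sets, and 100% of these twists have a rational point with coordinates in all these sets. -/
theorem result (c : ℝ) (hc : 1 < c) : ∃ κ : ℝ, 0 < κ ∧ κ < 1 ∧ ∀ (r : ℕ) (Ω : OpenSets r),
    ∃ E : Set ℝ, dimH E ≤ ENNReal.ofReal (1 - κ) ∧ ∀ α : ℝ, 0 < α → α ∉ E →
      ∀ (u v : ℕ) (A B D : MvPolynomial (Fin (r + 1)) ℤ), A.IsHomogeneous (2 * u) → B.IsHomogeneous (u + v) →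
        D.IsHomogeneous (2 * v) → 1 ≤ u + v →
        Squarefree (MvPolynomial.map (Int.castRingHom ℚ) (B ^ 2 - 4 * A * D)) →
        (∃ β : ℝ, 0 < β ∧ ∀ᶠ N : ℕ in atTop, β * N ≤ (count c α (Loc A B D Ω) N : ℝ)) ∧
        Tendsto (fun N : ℕ => (count c α (Glo A B D Ω) N : ℝ) / count c α (Loc A B D Ω) N) atTop (𝓝 1) := by
  classical
  obtain ⟨κ, hκ0, hκ1, H⟩ := use c hc
  refine ⟨κ, hκ0, hκ1, fun r Ω => ?_⟩
  have hcm := countable_mvpolys
  obtain ⟨E, hE, hh⟩ := H (fun _ _ => ∅) ((((MvPolynomial (Fin (r + 1)) ℤ × MvPolynomial (Fin (r + 1)) ℤ) ×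
    MvPolynomial (Fin (r + 1)) ℤ) × ℤ) × Bool)
    (fun i => S (fun a => if i.2 then Loc i.1.1.1.1 i.1.1.1.2 i.1.1.2 Ω a ∧ ¬ Glo i.1.1.1.1 i.1.1.1.2 i.1.1.2 Ω a
      else Loc i.1.1.1.1 i.1.1.1.2 i.1.1.2 Ω a) i.1.2)
  refine ⟨E, hE, fun α hα hαE u v A B D hA hB hD huv hsq => ?_⟩
  obtain ⟨_, _, h3⟩ := hh α hα hαE
  have hCL : ∀ s : ℤ, Cmp c α κ (ind (S (Loc A B D Ω) s)) := by
    intro s
    have := h3 ((((A, B), D), s), false)
    simpa using this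
  have hCB : ∀ s : ℤ, Cmp c α κ (ind (S (fun a => Loc A B D Ω a ∧ ¬ Glo A B D Ω a) s)) := by
    intro s
    have := h3 ((((A, B), D), s), true)
    simpa using this
  obtain ⟨⟨c₀, hc₀, hloc⟩, hrat⟩ := QuadraticTwists.result r u v A B D hA hB hD huv hsq Ω
  have eL : ∀ X : ℕ, QuadraticTwists.locallySoluble A B D Ω X =
      (((Icc (-(X : ℤ)) X).filter (fun a => Squarefree a ∧ Loc A B D Ω a) : Finset ℤ) : Set ℤ) := by
    intro X
    ext a
    rw [coe_filter]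
    show (|a| ≤ (X : ℤ) ∧ _) ↔ (a ∈ Icc (-(X : ℤ)) X ∧ _)
    rw [mem_Icc, _root_.abs_le]
    rfl
  have eG : ∀ X : ℕ, QuadraticTwists.globallySoluble A B D Ω X =
      (((Icc (-(X : ℤ)) X).filter (fun a => Squarefree a ∧ Glo A B D Ω a) : Finset ℤ) : Set ℤ) := by
    intro X
    ext a
    rw [coe_filter]
    show (|a| ≤ (X : ℤ) ∧ _) ↔ (a ∈ Icc (-(X : ℤ)) X ∧ _)
    rw [mem_Icc, _root_.abs_le]
    rfl
  -- the local ones
  obtain ⟨L, hL⟩ : ∃ L : ℕ → ℝ, L = fun X : ℕ => (((Icc (-(X : ℤ)) X).filter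
    (fun a => Squarefree a ∧ Loc A B D Ω a)).card : ℝ) := ⟨_, rfl⟩
  obtain ⟨G, hG⟩ : ∃ G : ℕ → ℝ, G = fun X : ℕ => (((Icc (-(X : ℤ)) X).filter
    (fun a => Squarefree a ∧ Glo A B D Ω a)).card : ℝ) := ⟨_, rfl⟩
  obtain ⟨W, hW⟩ : ∃ W : ℕ → ℝ, W = fun X : ℕ => (((Icc (-(X : ℤ)) X).filter
    (fun a => Squarefree a ∧ (Loc A B D Ω a ∧ ¬ Glo A B D Ω a))).card : ℝ) := ⟨_, rfl⟩
  have hLlow : ∀ᶠ X : ℕ in atTop, c₀ * X ≤ L X := by
    filter_upwards [hloc] with X hX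
    rw [eL, Set.ncard_coe_finset] at hX
    rw [hL]
    exact hX
  have hrat' : Tendsto (fun X => G X / L X) atTop (𝓝 1) := by
    refine hrat.congr fun X => ?_
    rw [eL, eG, Set.ncard_coe_finset, Set.ncard_coe_finset, hL, hG]
  have hsum : ∀ X, W X = L X - G X := by
    intro X
    rw [hW, hL, hG]
    have h5 := card_filter_add_card_filter_not (s := (Icc (-(X : ℤ)) X).filter
      (fun a => Squarefree a ∧ Loc A B D Ω a)) (fun a => Glo A B D Ω a)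
    rw [filter_filter, filter_filter] at h5
    have e1 : (Icc (-(X : ℤ)) X).filter (fun a => (Squarefree a ∧ Loc A B D Ω a) ∧ Glo A B D Ω a) =
        (Icc (-(X : ℤ)) X).filter (fun a => Squarefree a ∧ Glo A B D Ω a) :=
      filter_congr fun a _ => ⟨fun h => ⟨h.1.1, h.2⟩, fun h => ⟨⟨h.1, glo_loc h.2⟩, h.2⟩⟩
    have e2 : (Icc (-(X : ℤ)) X).filter (fun a => (Squarefree a ∧ Loc A B D Ω a) ∧ ¬ Glo A B D Ω a) =
        (Icc (-(X : ℤ)) X).filter (fun a => Squarefree a ∧ (Loc A B D Ω a ∧ ¬ Glo A B D Ω a)) :=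
      filter_congr fun a _ => and_assoc
    rw [e1, e2] at h5
    have h6 : (((Icc (-(X : ℤ)) X).filter (fun a => Squarefree a ∧ Glo A B D Ω a)).card : ℝ) +
        (((Icc (-(X : ℤ)) X).filter (fun a => Squarefree a ∧ (Loc A B D Ω a ∧ ¬ Glo A B D Ω a))).card : ℝ) =
        (((Icc (-(X : ℤ)) X).filter (fun a => Squarefree a ∧ Loc A B D Ω a)).card : ℝ) := by exact_mod_cast h5
    show (((Icc (-(X : ℤ)) X).filter (fun a => Squarefree a ∧ (Loc A B D Ω a ∧ ¬ Glo A B D Ω a))).card : ℝ) =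
      (((Icc (-(X : ℤ)) X).filter (fun a => Squarefree a ∧ Loc A B D Ω a)).card : ℝ) -
      (((Icc (-(X : ℤ)) X).filter (fun a => Squarefree a ∧ Glo A B D Ω a)).card : ℝ)
    linarith
  have hLle : ∀ X : ℕ, 1 ≤ X → L X ≤ 3 * X := by
    intro X hX
    rw [hL]
    have h5 := card_filter_le (Icc (-(X : ℤ)) X) (fun a => Squarefree a ∧ Loc A B D Ω a)
    rw [Int.card_Icc] at h5
    have h6 : ((Icc (-(X : ℤ)) X).filter (fun a => Squarefree a ∧ Loc A B D Ω a)).card ≤ 3 * X := by omega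
    show (((Icc (-(X : ℤ)) X).filter (fun a => Squarefree a ∧ Loc A B D Ω a)).card : ℝ) ≤ 3 * X
    exact_mod_cast h6
  have hW0 : Tendsto (fun X : ℕ => W X / X) atTop (𝓝 0) := by
    have k1 := ((tendsto_const_nhds (x := (1 : ℝ))).sub hrat').const_mul 3
    rw [sub_self, mul_zero] at k1
    refine squeeze_zero' (Eventually.of_forall fun X => ?_) ?_ k1
    · rw [hW]
      positivity
    · filter_upwards [hLlow, eventually_ge_atTop 1] with X hX hX1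
      have hX0 : (0 : ℝ) < X := by exact_mod_cast hX1
      have hL0 : 0 < L X := lt_of_lt_of_le (by positivity) hX
      rw [hsum]
      have e : (1 : ℝ) - G X / L X = (L X - G X) / L X := by field_simp
      rw [e, mul_div_assoc', div_le_div_iff₀ hX0 hL0]
      have hWX : 0 ≤ L X - G X := by
        rw [← hsum, hW]
        positivity
      have := mul_le_mul_of_nonneg_left (hLle X hX1) hWX
      linarith
  -- the exceptions along the sequence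
  have hbad : ∀ s : ℤ, (s = 1 ∨ s = -1) →
      Tendsto (fun N : ℕ => (hit c α (S (fun a => Loc A B D Ω a ∧ ¬ Glo A B D Ω a) s) N : ℝ) / N) atTop (𝓝 0) := by
    intro s hs
    refine (nat_iff hc hα hκ0 hκ1 (hCB s) 0).1 ?_
    refine squeeze_zero' (Eventually.of_forall fun X => by positivity) (Eventually.of_forall fun X => ?_) hW0
    apply div_le_div_of_nonneg_right _ (Nat.cast_nonneg _)
    rw [hW]
    show (cnt (S (fun a => Loc A B D Ω a ∧ ¬ Glo A B D Ω a) s) X : ℝ) ≤ (((Icc (-(X : ℤ)) X).filter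
      (fun a => Squarefree a ∧ (Loc A B D Ω a ∧ ¬ Glo A B D Ω a))).card : ℝ)
    rw [int_eq (fun a => Loc A B D Ω a ∧ ¬ Glo A B D Ω a), cnt_sum]
    have hi : ∀ (Q : Set ℕ) m, 0 ≤ ind Q m := by
      intro Q m
      unfold ind
      split_ifs <;> norm_num
    apply sum_le_sum
    intro m _
    rcases hs with rfl | rfl
    · have := hi (S (fun a => Loc A B D Ω a ∧ ¬ Glo A B D Ω a) (-1)) m
      linarith
    · have := hi (S (fun a => Loc A B D Ω a ∧ ¬ Glo A B D Ω a) 1) m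
      linarith
  have hbad2 : Tendsto (fun N : ℕ => (count c α (fun a => Loc A B D Ω a ∧ ¬ Glo A B D Ω a) N : ℝ) / N) atTop
      (𝓝 0) := by
    have h5 := (hbad 1 (Or.inl rfl)).add (hbad (-1) (Or.inr rfl))
    rw [add_zero] at h5
    refine h5.congr fun N => ?_
    rw [count_eq, add_div]
  -- the lower bound
  have hi : ∀ (Q : Set ℕ) m, 0 ≤ ind Q m ∧ ind Q m ≤ 1 := by
    intro Q m
    unfold ind
    split_ifs <;> constructor <;> norm_num
  have hB1 : B1 (fun m => (ind (S (Loc A B D Ω) 1) m + ind (S (Loc A B D Ω) (-1)) m) / 2) := by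
    intro m
    show |(ind (S (Loc A B D Ω) 1) m + ind (S (Loc A B D Ω) (-1)) m) / 2| ≤ 1
    have h5 := hi (S (Loc A B D Ω) 1) m
    have h6 := hi (S (Loc A B D Ω) (-1)) m
    rw [_root_.abs_le]
    constructor <;> linarith [h5.1, h5.2, h6.1, h6.2]
  obtain ⟨X₀, hX₀⟩ := hLlow.exists_forall_of_atTop
  obtain ⟨N₀, hN₀⟩ := low' hc hα hκ0 hB1 (Cmp.half (hCL 1) (hCL (-1))) (c₀ / 2) (by positivity) (fun ε hε =>
    ⟨X₀, fun X hX => by
      have h5 := hX₀ X hX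
      rw [hL] at h5
      have h5' : c₀ * X ≤ (((Icc (-(X : ℤ)) X).filter (fun a => Squarefree a ∧ Loc A B D Ω a)).card : ℝ) := h5
      rw [int_eq (Loc A B D Ω)] at h5'
      rw [← sum_div]
      have hX0 : (0 : ℝ) ≤ X := Nat.cast_nonneg _
      have := mul_nonneg hε.le hX0
      linarith⟩) (c₀ / 4) (by positivity)
  have hlow : ∀ N : ℕ, N₀ ≤ N → c₀ / 2 * N ≤ (count c α (Loc A B D Ω) N : ℝ) := by
    intro N hN
    have h5 := hN₀ N hN
    rw [← sum_div, sum_add_distrib, ← hit_sum, ← hit_sum, ← count_eq] at h5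
    linarith
  refine ⟨⟨c₀ / 2, by positivity, eventually_atTop.2 ⟨N₀, hlow⟩⟩, ?_⟩
  have hcs : ∀ N, (count c α (Glo A B D Ω) N : ℝ) + count c α (fun a => Loc A B D Ω a ∧ ¬ Glo A B D Ω a) N =
      count c α (Loc A B D Ω) N := by
    intro N
    have q1 : count c α (Glo A B D Ω) N = ((Icc 1 N ×ˢ ({1, -1} : Finset ℤ)).filter
      (fun p : ℕ × ℤ => Squarefree ⌊α * (p.1 : ℝ) ^ c⌋₊ ∧
        Glo A B D Ω (p.2 * ((⌊α * (p.1 : ℝ) ^ c⌋₊ : ℕ) : ℤ)))).card := card_filt' _ fun _ => Iff.rfl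
    have q2 : count c α (fun a => Loc A B D Ω a ∧ ¬ Glo A B D Ω a) N = ((Icc 1 N ×ˢ ({1, -1} : Finset ℤ)).filter
      (fun p : ℕ × ℤ => Squarefree ⌊α * (p.1 : ℝ) ^ c⌋₊ ∧
        (Loc A B D Ω (p.2 * ((⌊α * (p.1 : ℝ) ^ c⌋₊ : ℕ) : ℤ)) ∧
        ¬ Glo A B D Ω (p.2 * ((⌊α * (p.1 : ℝ) ^ c⌋₊ : ℕ) : ℤ))))).card := card_filt' _ fun _ => Iff.rfl
    have q3 : count c α (Loc A B D Ω) N = ((Icc 1 N ×ˢ ({1, -1} : Finset ℤ)).filter
      (fun p : ℕ × ℤ => Squarefree ⌊α * (p.1 : ℝ) ^ c⌋₊ ∧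
        Loc A B D Ω (p.2 * ((⌊α * (p.1 : ℝ) ^ c⌋₊ : ℕ) : ℤ)))).card := card_filt' _ fun _ => Iff.rfl
    have h5 := card_filter_add_card_filter_not (s := (Icc 1 N ×ˢ ({1, -1} : Finset ℤ)).filter
      (fun p : ℕ × ℤ => Squarefree ⌊α * (p.1 : ℝ) ^ c⌋₊ ∧ Loc A B D Ω (p.2 * ((⌊α * (p.1 : ℝ) ^ c⌋₊ : ℕ) : ℤ))))
      (fun p : ℕ × ℤ => Glo A B D Ω (p.2 * ((⌊α * (p.1 : ℝ) ^ c⌋₊ : ℕ) : ℤ)))
    rw [filter_filter, filter_filter] at h5
    have e1 : (Icc 1 N ×ˢ ({1, -1} : Finset ℤ)).filter (fun p : ℕ × ℤ => (Squarefree ⌊α * (p.1 : ℝ) ^ c⌋₊ ∧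
        Loc A B D Ω (p.2 * ((⌊α * (p.1 : ℝ) ^ c⌋₊ : ℕ) : ℤ))) ∧
        Glo A B D Ω (p.2 * ((⌊α * (p.1 : ℝ) ^ c⌋₊ : ℕ) : ℤ))) =
        (Icc 1 N ×ˢ ({1, -1} : Finset ℤ)).filter (fun p : ℕ × ℤ => Squarefree ⌊α * (p.1 : ℝ) ^ c⌋₊ ∧
        Glo A B D Ω (p.2 * ((⌊α * (p.1 : ℝ) ^ c⌋₊ : ℕ) : ℤ))) :=
      filter_congr fun a _ => ⟨fun h => ⟨h.1.1, h.2⟩, fun h => ⟨⟨h.1, glo_loc h.2⟩, h.2⟩⟩
    have e2 : (Icc 1 N ×ˢ ({1, -1} : Finset ℤ)).filter (fun p : ℕ × ℤ => (Squarefree ⌊α * (p.1 : ℝ) ^ c⌋₊ ∧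
        Loc A B D Ω (p.2 * ((⌊α * (p.1 : ℝ) ^ c⌋₊ : ℕ) : ℤ))) ∧
        ¬ Glo A B D Ω (p.2 * ((⌊α * (p.1 : ℝ) ^ c⌋₊ : ℕ) : ℤ))) =
        (Icc 1 N ×ˢ ({1, -1} : Finset ℤ)).filter (fun p : ℕ × ℤ => Squarefree ⌊α * (p.1 : ℝ) ^ c⌋₊ ∧
        (Loc A B D Ω (p.2 * ((⌊α * (p.1 : ℝ) ^ c⌋₊ : ℕ) : ℤ)) ∧
        ¬ Glo A B D Ω (p.2 * ((⌊α * (p.1 : ℝ) ^ c⌋₊ : ℕ) : ℤ)))) :=
      filter_congr fun a _ => and_assoc
    rw [e1, e2, ← q1, ← q2, ← q3] at h5
    exact_mod_cast h5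
  have k1 := hbad2.const_mul (2 / c₀)
  rw [mul_zero] at k1
  have k2 := (tendsto_const_nhds (x := (1 : ℝ))).sub k1
  rw [sub_zero] at k2
  refine tendsto_of_tendsto_of_tendsto_of_le_of_le' k2 (tendsto_const_nhds (x := (1 : ℝ))) ?_ ?_
  · filter_upwards [eventually_ge_atTop (max N₀ 1)] with N hN
    have hN0 : (0 : ℝ) < N := by exact_mod_cast (le_max_right _ _).trans hN
    have h5 := hlow N ((le_max_left _ _).trans hN)
    have h6 : 0 < (count c α (Loc A B D Ω) N : ℝ) := lt_of_lt_of_le (by positivity) h5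
    have h7 := hcs N
    have h8 : (0 : ℝ) ≤ (count c α (fun a => Loc A B D Ω a ∧ ¬ Glo A B D Ω a) N : ℝ) := Nat.cast_nonneg _
    rw [le_div_iff₀ h6, sub_mul, one_mul]
    have h9 : (count c α (fun a => Loc A B D Ω a ∧ ¬ Glo A B D Ω a) N : ℝ) ≤
        2 / c₀ * ((count c α (fun a => Loc A B D Ω a ∧ ¬ Glo A B D Ω a) N : ℝ) / N) * count c α (Loc A B D Ω) N := by
      have h10 := mul_le_mul_of_nonneg_left h5
        (show 0 ≤ 2 / c₀ * ((count c α (fun a => Loc A B D Ω a ∧ ¬ Glo A B D Ω a) N : ℝ) / N) by positivity)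
      refine le_trans (le_of_eq ?_) h10
      field_simp
    linarith
  · filter_upwards with N
    apply div_le_one_of_le₀ _ (Nat.cast_nonneg _)
    have h7 := hcs N
    have h8 : (0 : ℝ) ≤ (count c α (fun a => Loc A B D Ω a ∧ ¬ Glo A B D Ω a) N : ℝ) := Nat.cast_nonneg _
    linarith

end Pool.Agent.Results.MP_83e36b_nt.SparseQuadraticTwists
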