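import Pool.Agent.X20.Tr.Int
import Pool.Agent.X20.Tr.Sqf
import Pool.Agent.Results.MP_83e36b_nt.ShiftedWithBrauerClass

/-!
# Weak approximation for 100% of the surfaces `y² - a z² = b t (f(t) + k)`, `k = h ± ⌊α n ^ c⌋`

From Mathlib: `dimH E`: the Hausdorff dimension; `⌊x⌋₊`: the integer part; `Finset.Icc 1 N`: the integers from `1` to
`N`; `𝓝 0`: the neighbourhoods of `0`. From the team's `ShiftedWithBrauerClass` (its definitions are used as they are), for
the surface `W_k : y² - a z² = b t (f(t) + k) ≠ 0`: `Given f a b T M k t y z tr yr zr`: the `p`-adic points `(t p, y p, z p)`,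
`p ∈ T`, lie on `W_k`, have coordinates of absolute value at most `p ^ M` and `|t|, |f(t) + k| ≥ p ^ (-M)`, and
`(tr, yr, zr)` is a real point of `W_k`; `Approximated f a b T M k t y z tr`: some rational point of `W_k` is at the distance
at most `p ^ (-M)` from `(t p, y p, z p)` for all `p ∈ T`, and its coordinate `t` has the sign of `tr`.
-/

set_option autoImplicit false

namespace Pool.Agent.Results.MP_83e36b_nt.SparseShiftedWithBrauerClass

open Finset Filter Topology Polynomial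
open Pool.Agent.X20.Tr
open Pool.Agent.Results.MP_83e36b_nt.ShiftedWithBrauerClass (Given Approximated)

/-- weak approximation of level `M` at the primes of `T`, and for the sign of `t` at the real place, for `W_k` -/
def WA (f : ℤ[X]) (a b : ℤ) (T : Finset Nat.Primes) (M : ℕ) (k : ℤ) : Prop :=
  ∀ (t y z : (p : Nat.Primes) → ℚ_[(p : ℕ)]) (tr yr zr : ℝ),
    Given f a b T M k t y z tr yr zr → Approximated f a b T M k t y z tr

open Classical in
/-- For every real `c > 1` there are `κ > 0` and a set `E` of real numbers of Hausdorff dimension at most `1 - κ`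
such that for every real `α > 0` outside `E`, for ALL nonconstant `f ∈ ℤ[x]`, all nonzero integers `a`, `b`, every finite
set `T` of primes, every `M`, all integers `h` and both signs `s`: for 100% of the positive integers `n` weak approximation
of level `M` at the primes of `T` (and for the sign of `t` at the real place) holds for the surface `W_k`,
`k = h + s ⌊α n ^ c⌋`. -/
theorem result (c : ℝ) (hc : 1 < c) : ∃ κ : ℝ, 0 < κ ∧ κ < 1 ∧ ∃ E : Set ℝ, dimH E ≤ ENNReal.ofReal (1 - κ) ∧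
    ∀ α : ℝ, 0 < α → α ∉ E → ∀ (f : ℤ[X]) (a b : ℤ), 1 ≤ f.natDegree → a ≠ 0 → b ≠ 0 →
      ∀ (T : Finset Nat.Primes) (M : ℕ) (h s : ℤ), (s = 1 ∨ s = -1) →
        Tendsto (fun N : ℕ => (((Icc 1 N).filter
          (fun n : ℕ => WA f a b T M (h + s * ((⌊α * (n : ℝ) ^ c⌋₊ : ℕ) : ℤ)))).card : ℝ) / N) atTop (𝓝 1) := by
  obtain ⟨κ, hκ0, hκ1, H⟩ := sparse_int c hc
  have := countable_polys
  obtain ⟨E, hE, hh⟩ := H (((ℤ[X] × ℤ) × ℤ) × Finset Nat.Primes × ℕ)
    (fun i k => ¬ WA i.1.1.1 i.1.1.2 i.1.2 i.2.1 i.2.2 k)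
  refine ⟨κ, hκ0, hκ1, E, hE, fun α hα hαE f a b hf ha hb T M h s hs => ?_⟩
  have h0 := (hh α hα hαE (((f, a), b), (T, M)) h s hs).2 (by
    refine (ShiftedWithBrauerClass.result f hf a b ha hb T M).congr fun X => ?_
    exact congrArg (fun x : ℕ => (x : ℝ) / X) (card_filt' _ fun _ => Iff.rfl))
  have h1 : Tendsto (fun N : ℕ => (((Icc 1 N).filter
      (fun n : ℕ => ¬ WA f a b T M (h + s * ((⌊α * (n : ℝ) ^ c⌋₊ : ℕ) : ℤ)))).card : ℝ) / N) atTop (𝓝 0) := by
    refine h0.congr fun N => ?_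
    exact congrArg (fun x : ℕ => (x : ℝ) / N) (card_filt' _ fun _ => Iff.rfl)
  have h2 := (tendsto_const_nhds (x := (1 : ℝ))).sub h1
  rw [sub_zero] at h2
  refine h2.congr' ?_
  filter_upwards [eventually_ge_atTop 1] with N hN
  have hN0 : (N : ℝ) ≠ 0 := by
    have : (0 : ℝ) < N := by exact_mod_cast hN
    exact this.ne'
  have h3 := card_filter_add_card_filter_not (s := Icc 1 N)
    (fun n : ℕ => WA f a b T M (h + s * ((⌊α * (n : ℝ) ^ c⌋₊ : ℕ) : ℤ)))
  rw [Nat.card_Icc, Nat.add_sub_cancel] at h3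
  have h4 : (((Icc 1 N).filter (fun n : ℕ => WA f a b T M (h + s * ((⌊α * (n : ℝ) ^ c⌋₊ : ℕ) : ℤ)))).card : ℝ) +
      (((Icc 1 N).filter (fun n : ℕ => ¬ WA f a b T M (h + s * ((⌊α * (n : ℝ) ^ c⌋₊ : ℕ) : ℤ)))).card : ℝ) = N := by
    exact_mod_cast h3
  show (1 : ℝ) - (((Icc 1 N).filter (fun n : ℕ => ¬ WA f a b T M (h + s * ((⌊α * (n : ℝ) ^ c⌋₊ : ℕ) : ℤ)))).card : ℝ) / N =
    (((Icc 1 N).filter (fun n : ℕ => WA f a b T M (h + s * ((⌊α * (n : ℝ) ^ c⌋₊ : ℕ) : ℤ)))).card : ℝ) / N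
  rw [eq_div_iff hN0, sub_mul, div_mul_cancel₀ _ hN0]
  linarith

end Pool.Agent.Results.MP_83e36b_nt.SparseShiftedWithBrauerClass
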